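import Pool.Agent.helper83.FI.SpecR

/-!
# fib:ZEA (MP_baa4d7_al): a number divisible by all powers of `p` is zero
-/

set_option autoImplicit false

namespace Pool.Agent.FI

open Pool.Agent.helper58.DC Pool.Agent.DI Pool.Agent.GR

theorem ZEA (hZER : ZER_stmt) : ZEA_stmt := by
  intro p M h z hz
  obtain ⟨a, b, hb, e⟩ := Small.intAt h (hz 0)
  have h1 : (a : ℂ) = 0 := by
    apply hZER p M h (a : ℂ) a.2
    intro r
    rw [← e, mul_comm]
    exact Small.mul_left h (IntAt.coe h b) (hz r)
  rw [h1] at e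
  rcases mul_eq_zero.1 e with h2 | h2
  · exact h2
  · exact absurd h2 (h.ne_zero hb)

end Pool.Agent.FI
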