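import Pool.Agent.helper70.FI.SpecQ1

/-!
# fib:QCJ: transport of `mt` and `EE` by conjugation
-/

set_option autoImplicit false

namespace Pool.Agent.FI

open Pool.Agent.helper58.DC Pool.Agent.DI Pool.Agent.GR Pool.Agent.OB

theorem QCJ_card {G : Type} [Group G] (l : G) (K : Subgroup G) :
    Nat.card (cjS l K) = Nat.card K := by
  have h : Function.Injective (MulAut.conj l).toMonoidHom := (MulAut.conj l).injective
  exact (Nat.card_congr (K.equivMapOfInjective _ h).toEquiv).symm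

theorem QCJ_inv {G : Type} [Group G] (l v : G) : l⁻¹ * (l * v * l⁻¹) * l = v := by group

theorem QCJ_inv' {G : Type} [Group G] (l v : G) : l * (l⁻¹ * v * l) * l⁻¹ = v := by group

theorem QCJ_inv2 {G : Type} [Group G] (l v : G) : l⁻¹ * (l * v * l⁻¹)⁻¹ * l = v⁻¹ := by group

theorem QCJ_ord {G : Type} [Group G] (l v : G) : orderOf (l * v * l⁻¹) = orderOf v := by
  have h := orderOf_injective (MulAut.conj l).toMonoidHom (MulAut.conj l).injective v
  exact h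

theorem QCJ_bij {G : Type} [Group G] (l : G) (K : Subgroup G) (p : ℕ) :
    Set.BijOn (fun v => l * v * l⁻¹) {v : G | v ∈ K ∧ PReg p v} {v : G | v ∈ cjS l K ∧ PReg p v} := by
  refine ⟨?_, ?_, ?_⟩
  · rintro v ⟨hv, hp⟩
    refine ⟨mem_cjS.2 ?_, ?_⟩
    · rw [QCJ_inv]
      exact hv
    · unfold PReg at hp ⊢
      rw [QCJ_ord]
      exact hp
  · intro a _ b _ hab
    have h1 : l * a * l⁻¹ = l * b * l⁻¹ := hab
    exact mul_left_cancel (mul_right_cancel h1)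
  · rintro v ⟨hv, hp⟩
    refine ⟨l⁻¹ * v * l, ⟨mem_cjS.1 hv, ?_⟩, QCJ_inv' l v⟩
    unfold PReg at hp ⊢
    have h := QCJ_ord l (l⁻¹ * v * l)
    rw [QCJ_inv'] at h
    rw [← h]
    exact hp

theorem QCJ_bij2 {G : Type} [Group G] (l : G) (K : Subgroup G) :
    Set.BijOn (fun v => l * v * l⁻¹) (K : Set G) (cjS l K : Set G) := by
  refine ⟨?_, ?_, ?_⟩
  · intro v hv
    refine mem_cjS.2 ?_
    rw [QCJ_inv]
    exact hv
  · intro a _ b _ hab
    have h1 : l * a * l⁻¹ = l * b * l⁻¹ := hab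
    exact mul_left_cancel (mul_right_cancel h1)
  · intro v hv
    exact ⟨l⁻¹ * v * l, mem_cjS.1 hv, QCJ_inv' l v⟩

theorem QCJ : QCJ_stmt := by
  intro G _ _ l K
  refine ⟨fun p η ψ => ?_, fun χ' hχ ψ => ?_⟩
  · unfold EE
    rw [QCJ_card]
    refine congrArg (fun t => t / (Nat.card K : ℂ)) (Eq.symm ?_)
    refine finsum_mem_eq_of_bijOn (fun v => l * v * l⁻¹) (QCJ_bij l K p) fun v _ => ?_
    change η v * ψ v⁻¹ = cjF l η (l * v * l⁻¹) * cjF l ψ (l * v * l⁻¹)⁻¹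
    rw [cjF_apply, cjF_apply, QCJ_inv, QCJ_inv2]
  · unfold mt
    rw [QCJ_card]
    refine congrArg (fun t => t / (Nat.card K : ℂ)) (Eq.symm ?_)
    refine finsum_mem_eq_of_bijOn (fun v => l * v * l⁻¹) (QCJ_bij2 l K) fun v _ => ?_
    change χ' v * ψ v⁻¹ = χ' (l * v * l⁻¹) * cjF l ψ (l * v * l⁻¹)⁻¹
    rw [hχ, cjF_apply, QCJ_inv2]

end Pool.Agent.FI
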